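import Pool.Agent.Lib.MP_a3f657_nt.PR.Wild

/-!
The law of Poonen and Rains for the 2-Selmer rank, up to an error that decays geometrically, in
families of positive density over `k(t)` in characteristic two.
-/

namespace Pool.Agent.Results.MP_a3f657_nt.PoonenRainsWild

open Pool.Agent.Lib.MP_a3f657_nt.Two Filter Polynomial IsDedekindDomain

theorem result (k : Type) [Field k] [Fintype k] [CharP k 2] (m : ℕ) (ε : ℝ) (hε : 0 < ε) :
    ∃ R₀ : Finset (HeightOneSpectrum k[X]), ∀ R : Finset (HeightOneSpectrum k[X]), R.card = m →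
      Disjoint R R₀ → ∃ δ : ℝ, 0 < δ ∧ ∀ S : Set ℕ, ∀ᶠ d : ℕ in atTop, δ ≤ dens (Wild R) d ∧
        |dens (fun W => Wild R W ∧ ∃ r ∈ S, selOrder W = 2 ^ r) d / dens (Wild R) d -
          ∑' r : S, (∏' j : ℕ, (1 + (1 / 2 : ℝ) ^ j))⁻¹ *
            ∏ i ∈ Finset.range r, (2 : ℝ) / (2 ^ (i + 1) - 1)| ≤ 6 * (3 / 4) ^ m + ε := by
  simpa only [Vir.lawS_eq, Vir.lawPR] using Vir.wild_law k m hε

end Pool.Agent.Results.MP_a3f657_nt.PoonenRainsWild
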