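import Pool.Agent.Lib.MP_a3f657_nt.BK.YFin
import Pool.Agent.Lib.MP_a3f657_nt.BK.SelIso

/-!
The full limit law of the `2 ^ ∞`-Selmer group for the curves
`y ^ 2 + x y = x ^ 3 + a x ^ 2 + b` over `k(t)`, `k` finite of characteristic two.
-/

namespace Pool.Agent.Results.MP_a3f657_nt.SelmerFullLaw

open Pool.Agent.Lib.MP_a3f657_nt.Two Polynomial

theorem result (k : Type) [Field k] [Fintype k] [CharP k 2] (r : ℕ) (G : Type) [AddCommGroup G]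
    [Finite G] (hG : ∃ n : ℕ, Nat.card G = 2 ^ n) (ω : G →+ G →+ AddCircle (1 : ℚ))
    (halt : ∀ x, ω x x = 0) (hnd : ∀ x, (∀ y, ω x y = 0) → x = 0) (ε : ℝ) (hε : 0 < ε) :
    ∃ M : ℕ, ∀ e n : ℕ, Odd e → Odd n → M ≤ e → 2 * e + M * Nat.log 2 e ≤ n →
      (n - 2 * e) ^ 8 ≤ e →
      |(Set.ncard {p : k[X] × k[X] |
            (p.1.natDegree = e ∧ Squarefree p.2 ∧ p.2.natDegree = n) ∧
            SelIso ((⟨1, p.1, 0, 0, p.2⟩ : WeierstrassCurve k[X]).baseChange (RatFunc k)) r G} : ℝ) /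
          Set.ncard {p : k[X] × k[X] | p.1.natDegree = e ∧ Squarefree p.2 ∧ p.2.natDegree = n} -
        (Nat.card G : ℝ) ^ (1 - (r : ℤ)) / autCard ω *
          if r ≤ 1 then 1 / 2 * ∏' i : ℕ, (1 - (2 : ℝ)⁻¹ ^ (2 * (i + r) + 1)) else 0| ≤ ε := by
  have e : ∀ a b : k[X], (⟨1, a, 0, 0, b⟩ : WeierstrassCurve k[X]).baseChange (RatFunc k) =
      EW (ι a) (ι b) := fun a b => by
    simp [WeierstrassCurve.baseChange, WeierstrassCurve.map, EW, ι]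
  have e0 : ∀ W : WeierstrassCurve (RatFunc k),
      SelIso W r G ↔ Nonempty (SelInf W ≃+ (Fin r → Pru) × G) := fun W => Iff.rfl
  have e1 : autCard ω = nSp ω := rfl
  simp only [e, e0, e1]
  obtain ⟨M, h⟩ := Pool.Agent.Lib.MP_788af2_nt.AS.bklpr k r G hG ω ⟨halt, hnd⟩ ε hε
  refine ⟨M, fun e n h1 h2 h3 h4 h5 => ?_⟩
  have h6 := h e n h1 h2 h3 h4 h5
  by_cases hr : r ≤ 1
  · rw [if_pos hr] at h6 ⊢
    exact h6
  · rw [if_neg hr] at h6 ⊢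
    exact h6

end Pool.Agent.Results.MP_a3f657_nt.SelmerFullLaw
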