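import Pool.Agent.Lib.MP_a3f657_nt.C2All
import Pool.Agent.Lib.MP_a3f657_nt.C3All
import Pool.Agent.Lib.MP_a3f657_nt.PDefs

/-!
Equidistribution of the parity of the `p`-Selmer rank over `k(t)`, `k` finite of characteristic
`p`, for `p` equal to two or three.
-/

namespace Pool.Agent.Results.MP_a3f657_nt.SelmerParityChar

open Pool.Agent.Lib.MP_a3f657_nt Pool.Agent.Lib.MP_a3f657_nt.Two Pool.Agent.Lib.MP_a3f657_nt.Par
  Filter Topology

theorem result (p : ℕ) (hp : p = 2 ∨ p = 3) (k : Type) [Field k] [Fintype k] [CharP k p]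
    (e : ZMod 2) :
    Tendsto (dens (k := k) fun W => ∃ n : ℕ, selP p W = p ^ n ∧ (n : ZMod 2) = e) atTop
      (𝓝 (1 / 2)) := by
  rcases hp with rfl | rfl
  · exact Two.parity_dens Two.cellRed Two.cellAn' e
  · exact Three.parity_dens Three.cellRed' Three.cellAn' k e

end Pool.Agent.Results.MP_a3f657_nt.SelmerParityChar
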